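import Pool.Agent.Run7.h717.SA.All

/-!
# The solid angle of a random high-dimensional cone: the limit of the rare spikes exists

`pos x` is the positive hull of `x_1, .., x_d` in `R^d`, `unif d` the uniform distribution on the unit
sphere of `R^d`, `solid x` the solid angle of `pos x`, and `muD d` the measure
`2^d * d * P[solid (U_1, .., U_d) ∈ A]` on `(0, ∞)`, with `U_1, .., U_d` independent with law `unif d`.
-/

set_option autoImplicit false

namespace Pool.Agent.Results.MP_da621d_pr.VagueLimit

open MeasureTheory ProbabilityTheory Filter Topology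
open scoped ENNReal

/-- The positive hull of `x_1, .., x_d` in `R^d`. -/
def pos {d : ℕ} (x : Fin d → EuclideanSpace ℝ (Fin d)) : Set (EuclideanSpace ℝ (Fin d)) :=
  {y | ∃ c : Fin d → ℝ, (∀ i, 0 ≤ c i) ∧ y = ∑ i, c i • x i}

/-- The uniform distribution on the unit sphere of `R^d`: the normalised surface measure, as a measure on
`R^d`. -/
noncomputable def unif (d : ℕ) : Measure (EuclideanSpace ℝ (Fin d)) :=
  ((volume : Measure (EuclideanSpace ℝ (Fin d))).toSphere Set.univ)⁻¹ •
    ((volume : Measure (EuclideanSpace ℝ (Fin d))).toSphere.map Subtype.val)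

/-- The solid angle of the cone `pos x`: the probability that a uniform unit vector lies in it. -/
noncomputable def solid {d : ℕ} (x : Fin d → EuclideanSpace ℝ (Fin d)) : ℝ := (unif d).real (pos x)

/-- The law of the solid angle of the positive hull of `d` independent uniform unit vectors of `R^d`. -/
noncomputable def solidLaw (d : ℕ) : Measure ℝ := (Measure.pi fun _ : Fin d => unif d).map solid

/-- The measure `A ↦ 2^d * d * P[solid angle ∈ A]` on `(0, ∞)`. -/
noncomputable def muD (d : ℕ) : Measure (Set.Ioi (0:ℝ)) :=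
  ((2:ℝ≥0∞) ^ d * d) • (solidLaw d).comap Subtype.val

/-- For every `d ≥ 1` the law `unif d` is a probability measure on the unit sphere and the solid angle is
almost everywhere measurable, so that `muD d` is the measure of the problem; and there is a locally finite
measure `μ ≠ 0` on `(0, ∞)` such that `∫ f dμ_d → ∫ f dμ` for every continuous function `f` on `(0, ∞)` with
compact support. -/
theorem result :
    (∀ d : ℕ, 1 ≤ d → IsProbabilityMeasure (unif d) ∧
      AEMeasurable (solid (d := d)) (Measure.pi fun _ : Fin d => unif d)) ∧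
    ∃ μ : Measure (Set.Ioi (0:ℝ)), IsLocallyFiniteMeasure μ ∧ μ ≠ 0 ∧
      ∀ f : Set.Ioi (0:ℝ) → ℝ, Continuous f → HasCompactSupport f →
        Tendsto (fun d : ℕ => ∫ x, f x ∂(muD d)) atTop (𝓝 (∫ x, f x ∂μ)) := by
  obtain ⟨h1, μ, hl, h0, hf⟩ := Pool.Agent.Run7.h717.SA.main
  refine ⟨fun d hd => ⟨Pool.Agent.Run7.h717.SA.unif_prob d hd, h1 d hd⟩, μ, hl, h0, fun f hc hs => ?_⟩
  exact hf ⟨⟨f, hc⟩, hs⟩

end Pool.Agent.Results.MP_da621d_pr.VagueLimit
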